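import Pool.Agent.Zk39.LC.VC

/-!
# Linear cocycles are null relative to the base
-/

set_option autoImplicit false

open Finset

namespace Pool.Agent.Zk39.LC

/-- the space `ℝ^n` -/
abbrev Eu (n : ℕ) : Type := EuclideanSpace ℝ (Fin n)

/-- **Fibres with a linear action.** `Φ_1, …, Φ_J` are continuous functions on `X` without zeros and with values in `ℝ^n`; a
point of `X` is determined by its image under `π` and by the rays through the `Φ_j`; and on each fibre of `π` the map `T`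
acts on each `Φ_j` by a linear map, up to positive factors (which may depend on the point). -/
def LinearFibres {X Y : Type} [TopologicalSpace X] {J n : ℕ} (T : X → X) (π : X → Y) (Φ : Fin J → X → Eu n) : Prop :=
  (∀ j, Continuous (Φ j)) ∧ (∀ j x, Φ j x ≠ 0) ∧
  (∀ x x', π x = π x' → (∀ j, ∃ c : ℝ, 0 < c ∧ Φ j x' = c • Φ j x) → x = x') ∧
  ∀ y j, ∃ g : Eu n →ₗ[ℝ] Eu n, ∀ x, π x = y → ∃ c : ℝ, 0 < c ∧ Φ j (T x) = c • g (Φ j x)

section

set_option linter.unusedSectionVars false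

variable {X Y : Type} [TopologicalSpace X] {J n : ℕ} {S : Y → Y} {T : X → X} {π : X → Y} {Φ : Fin J → X → Eu n}

theorem semi_iter (h : ∀ x, π (T x) = S (π x)) (m : ℕ) (x : X) : π (T^[m] x) = S^[m] (π x) := by
  induction m with
  | zero => rfl
  | succ m ih => rw [Function.iterate_succ_apply', Function.iterate_succ_apply', h, ih]

theorem lin_iter (h : ∀ x, π (T x) = S (π x)) (hΦ : LinearFibres T π Φ) (m : ℕ) (y : Y) (j : Fin J) :
    ∃ g : Eu n →ₗ[ℝ] Eu n, ∀ x, π x = y → ∃ c : ℝ, 0 < c ∧ Φ j (T^[m] x) = c • g (Φ j x) := by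
  induction m with
  | zero => exact ⟨LinearMap.id, fun x _ => ⟨1, one_pos, by simp⟩⟩
  | succ m ih =>
    obtain ⟨g, hg⟩ := ih
    obtain ⟨g', hg'⟩ := hΦ.2.2.2 (S^[m] y) j
    refine ⟨g'.comp g, fun x hx => ?_⟩
    obtain ⟨c, hc, h1⟩ := hg x hx
    obtain ⟨c', hc', h2⟩ := hg' (T^[m] x) (by rw [semi_iter h, hx])
    refine ⟨c' * c, mul_pos hc' hc, ?_⟩
    rw [Function.iterate_succ_apply', h2, h1, map_smul, LinearMap.comp_apply, smul_smul]

/-- the unit vector of a vector -/
noncomputable def un (v : Eu n) : Eu n := ‖v‖⁻¹ • v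

theorem norm_un {v : Eu n} (hv : v ≠ 0) : ‖un v‖ = 1 := by
  unfold un
  rw [norm_smul, norm_inv, norm_norm, inv_mul_cancel₀ (norm_ne_zero_iff.2 hv)]

theorem un_pos {v w : Eu n} (hv : v ≠ 0) : 0 < inner ℝ w (un v) ↔ 0 < inner ℝ w v := by
  unfold un
  rw [real_inner_smul_right]
  have : 0 < ‖v‖⁻¹ := inv_pos.2 (norm_pos_iff.2 hv)
  constructor
  · intro h
    exact (pos_iff_pos_of_mul_pos h).1 this
  · exact fun h => mul_pos this h

theorem of_un_eq {v w : Eu n} (hv : v ≠ 0) (hw : w ≠ 0) (h : un v = un w) : ∃ c : ℝ, 0 < c ∧ w = c • v := by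
  refine ⟨‖w‖ * ‖v‖⁻¹, mul_pos (norm_pos_iff.2 hw) (inv_pos.2 (norm_pos_iff.2 hv)), ?_⟩
  have h1 : ‖w‖ • un w = w := by
    unfold un
    rw [smul_smul, mul_inv_cancel₀ (norm_ne_zero_iff.2 hw), one_smul]
  rw [← smul_smul]
  show w = ‖w‖ • un v
  rw [h, h1]

theorem continuous_un {f : X → Eu n} (hf : Continuous f) (h0 : ∀ x, f x ≠ 0) : Continuous fun x => un (f x) := by
  unfold un
  exact (hf.norm.inv₀ fun x => norm_ne_zero_iff.2 (h0 x)).smul hf

/-- finitely many linear functionals distinguish the unit vectors at a distance by their signs -/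
theorem exists_net (n : ℕ) {ε : ℝ} (hε : 0 < ε) : ∃ W : Finset (Eu n), ∀ u u' : Eu n, ‖u‖ = 1 → ‖u'‖ = 1 → ε ≤ ‖u - u'‖ →
    ∃ w ∈ W, 0 < inner ℝ w u ∧ ¬ 0 < inner ℝ w u' := by
  obtain ⟨t, -, htf, ht⟩ := (isCompact_closedBall (0 : Eu n) 2).finite_cover_balls (show 0 < ε ^ 2 / 2 by positivity)
  refine ⟨htf.toFinset, fun u u' hu hu' huu => ?_⟩
  have hmem : u - u' ∈ Metric.closedBall (0 : Eu n) 2 := by
    rw [mem_closedBall_zero_iff]
    calc ‖u - u'‖ ≤ ‖u‖ + ‖u'‖ := norm_sub_le _ _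
      _ = 2 := by rw [hu, hu']; norm_num
  obtain ⟨w, hw, hwb⟩ := Set.mem_iUnion₂.1 (ht hmem)
  rw [Metric.mem_ball, dist_eq_norm] at hwb
  refine ⟨w, htf.mem_toFinset.2 hw, ?_, ?_⟩
  all_goals
    have h1 : inner ℝ u u = (1 : ℝ) := by rw [real_inner_self_eq_norm_sq, hu]; norm_num
    have h2 : inner ℝ u' u' = (1 : ℝ) := by rw [real_inner_self_eq_norm_sq, hu']; norm_num
    have h3 : ‖u - u'‖ ^ 2 = 2 - 2 * inner ℝ u u' := by
      rw [norm_sub_sq_real, hu, hu']
      ring
    have h4 : ε ^ 2 ≤ ‖u - u'‖ ^ 2 := pow_le_pow_left₀ hε.le huu 2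
  · have h5 : inner ℝ w u = inner ℝ (u - u') u - inner ℝ (u - u' - w) u := by
      rw [← inner_sub_left]
      congr 1
      abel
    have h6 : |inner ℝ (u - u' - w) u| ≤ ‖u - u' - w‖ := by
      have := abs_real_inner_le_norm (u - u' - w) u
      rwa [hu, mul_one] at this
    have h7 := (abs_le.1 h6).2
    rw [h5, inner_sub_left, h1, real_inner_comm]
    linarith
  · have h5 : inner ℝ w u' = inner ℝ (u - u') u' - inner ℝ (u - u' - w) u' := by
      rw [← inner_sub_left]
      congr 1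
      abel
    have h6 : |inner ℝ (u - u' - w) u'| ≤ ‖u - u' - w‖ := by
      have := abs_real_inner_le_norm (u - u' - w) u'
      rwa [hu', mul_one] at this
    have h7 := (abs_le.1 h6).1
    rw [h5, inner_sub_left, h2]
    linarith

/-- **Nullness.** -/
theorem null [CompactSpace X] [TopologicalSpace Y] [T2Space Y] (hπ : Continuous π)
    (h : ∀ x, π (T x) = S (π x)) (hΦ : LinearFibres T π Φ) (A B : Set X) (hA : IsClosed A) (hB : IsClosed B)
    (hAB : Disjoint A B) : ∃ d : ℕ, ∀ (y : Y) (m : Fin d → ℕ), ∃ τ : Fin d → Bool, ∀ x, π x = y →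
      ∃ i, T^[m i] x ∉ (if τ i then A else B) := by
  classical
  obtain ⟨hc, h0, hinj, -⟩ := id hΦ
  -- the distance of the unit vectors
  obtain ⟨ε, hε, hsep⟩ : ∃ ε : ℝ, 0 < ε ∧ ∀ a ∈ A, ∀ b ∈ B, π a = π b → ∃ j, ε ≤ ‖un (Φ j a) - un (Φ j b)‖ := by
    set K : Set (X × X) := {q | q.1 ∈ A ∧ q.2 ∈ B ∧ π q.1 = π q.2} with hK
    have hKc : IsCompact K := by
      apply IsClosed.isCompact
      exact (hA.preimage continuous_fst).inter ((hB.preimage continuous_snd).inter
        (isClosed_eq (hπ.comp continuous_fst) (hπ.comp continuous_snd)))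
    set D : X × X → ℝ := fun q => ‖(fun j => un (Φ j q.1) - un (Φ j q.2) : Fin J → Eu n)‖ with hD
    have hDc : Continuous D := by
      refine Continuous.norm (continuous_pi fun j => ?_)
      exact ((continuous_un (hc j) (h0 j)).comp continuous_fst).sub ((continuous_un (hc j) (h0 j)).comp continuous_snd)
    have hDpos : ∀ q ∈ K, 0 < D q := by
      rintro ⟨a, b⟩ ⟨ha, hb, hab⟩
      rw [hD]
      simp only
      rw [norm_pos_iff]
      intro h1
      have h2 : a = b := hinj a b hab fun j => of_un_eq (h0 j a) (h0 j b) (sub_eq_zero.1 (congrFun h1 j))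
      subst h2
      exact Set.disjoint_left.1 hAB ha hb
    obtain ⟨ε, hε, h1⟩ : ∃ ε : ℝ, 0 < ε ∧ ∀ q ∈ K, ε ≤ D q := by
      rcases K.eq_empty_or_nonempty with hK0 | hK0
      · exact ⟨1, one_pos, fun q hq => by rw [hK0] at hq; exact absurd hq (Set.notMem_empty q)⟩
      · obtain ⟨q, hq, hmin⟩ := hKc.exists_isMinOn hK0 hDc.continuousOn
        exact ⟨D q, hDpos q hq, fun q' hq' => hmin hq'⟩
    refine ⟨ε, hε, fun a ha b hb hab => ?_⟩
    by_contra hcon
    push Not at hcon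
    have h2 := h1 (a, b) ⟨ha, hb, hab⟩
    have h3 : D (a, b) < ε := (pi_norm_lt_iff hε).2 hcon
    linarith
  obtain ⟨W, hW⟩ := exists_net n hε
  set q : ℕ := Module.finrank ℝ (Fin J → Eu n) with hq
  obtain ⟨k, hk⟩ := exists_large q (J * W.card)
  refine ⟨k, fun y m => ?_⟩
  by_contra hcon
  push Not at hcon
  choose x hxy hx using hcon
  choose g hg using fun i j => lin_iter h hΦ (m i) y j
  -- the sign patterns
  set I := Fin k × Fin J × {w // w ∈ W} with hI
  set L : {x // π x = y} → I → Prop := fun ω p => 0 < inner ℝ p.2.2.1 (Φ p.2.1 (T^[m p.1] ω.1)) with hLdef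
  set Z : (Fin k → Bool) → Finset I := fun τ => univ.filter fun p => L ⟨x τ, hxy τ⟩ p with hZ
  have hZinj : Function.Injective Z := by
    intro τ τ' hττ
    by_contra hne
    obtain ⟨i, hi⟩ := Function.ne_iff.1 hne
    have h1 := hx τ i
    have h2 := hx τ' i
    have hbase : π (T^[m i] (x τ)) = π (T^[m i] (x τ')) := by rw [semi_iter h, semi_iter h, hxy, hxy]
    have key : ∀ σ σ' : Fin k → Bool, Z σ = Z σ' → T^[m i] (x σ) ∈ A → T^[m i] (x σ') ∈ B →
        π (T^[m i] (x σ)) = π (T^[m i] (x σ')) → False := by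
      intro σ σ' hZZ ha hb hab
      obtain ⟨j, hj⟩ := hsep _ ha _ hb hab
      obtain ⟨w, hw, hw1, hw2⟩ := hW _ _ (norm_un (h0 j _)) (norm_un (h0 j _)) hj
      rw [un_pos (h0 j _)] at hw1 hw2
      have h3 : ((i, j, ⟨w, hw⟩) : I) ∈ Z σ := mem_filter.2 ⟨mem_univ _, hw1⟩
      rw [hZZ] at h3
      exact hw2 (mem_filter.1 h3).2
    cases hτ : τ i
    · cases hτ' : τ' i
      · exact hi (by rw [hτ, hτ'])
      · rw [hτ] at h1
        rw [hτ'] at h2
        simp only [Bool.false_eq_true, if_false, if_true] at h1 h2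
        exact key τ' τ hττ.symm h2 h1 hbase.symm
    · cases hτ' : τ' i
      · rw [hτ] at h1
        rw [hτ'] at h2
        simp only [Bool.false_eq_true, if_false, if_true] at h1 h2
        exact key τ τ' hττ h1 h2 hbase
      · exact hi (by rw [hτ, hτ'])
  have hcard : (univ.image Z).card = 2 ^ k := by
    rw [card_image_of_injective _ hZinj, card_univ, Fintype.card_fun, Fintype.card_bool, Fintype.card_fin]
  have hbound := pattern_card (V := Fin J → Eu n) L
    (fun p => ((innerₛₗ ℝ p.2.2.1).comp (g p.1 p.2.1)).comp (LinearMap.proj p.2.1)) (fun ω j => Φ j ω.1) (fun ω p => by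
      obtain ⟨c, hc', h1⟩ := hg p.1 p.2.1 ω.1 ω.2
      rw [hLdef]
      simp only [LinearMap.comp_apply, LinearMap.proj_apply, innerₛₗ_apply_apply]
      rw [h1, real_inner_smul_right]
      constructor
      · intro h2
        exact (pos_iff_pos_of_mul_pos h2).1 hc'
      · exact fun h2 => mul_pos hc' h2) (univ.image Z) (fun u hu => by
      obtain ⟨τ, -, rfl⟩ := mem_image.1 hu
      refine ⟨⟨x τ, hxy τ⟩, fun p => ?_⟩
      rw [hZ]
      simp only [mem_filter, mem_univ, true_and])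
  rw [hcard, ← hq] at hbound
  have hIcard : Fintype.card I = k * (J * W.card) := by
    show Fintype.card (Fin k × Fin J × {w // w ∈ W}) = _
    rw [Fintype.card_prod, Fintype.card_prod, Fintype.card_fin, Fintype.card_fin, Fintype.card_coe]
  rw [hIcard] at hbound
  omega

end

end Pool.Agent.Zk39.LC
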