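import Mathlib

/-!
# Linear functionals and sign patterns

If all the `2 ^ k` patterns of visits of the orbits of the points of a fibre to two separated sets are realised, and the
sets are distinguished by the signs of linear functionals of a vector on which the maps act linearly up to positive
factors, then `k` is bounded: the signs of linear functionals on a `q`-dimensional space have VC dimension at most `q`.
-/

set_option autoImplicit false

open Finset

namespace Pool.Agent.Zk39.LC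

open Classical in
/-- the signs of linear functionals on a space of dimension `q` shatter at most `q` of them -/
theorem shatter_card {V I Ω : Type} [AddCommGroup V] [Module ℝ V] [Module.Finite ℝ V] [DecidableEq I] [Fintype I]
    (L : Ω → I → Prop) (f : I → (V →ₗ[ℝ] ℝ)) (v : Ω → V) (hL : ∀ ω p, L ω p ↔ 0 < f p (v ω))
    (𝒜 : Finset (Finset I)) (h𝒜 : ∀ u ∈ 𝒜, ∃ ω, u = univ.filter fun p => L ω p) (s : Finset I) (hs : 𝒜.Shatters s) :
    s.card ≤ Module.finrank ℝ V := by
  by_contra hcon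
  push Not at hcon
  have hnl : ¬ LinearIndependent ℝ (fun p : {p // p ∈ s} => f p.1) := by
    intro h
    have h1 := h.fintype_card_le_finrank
    rw [Fintype.card_coe] at h1
    have h2 : Module.finrank ℝ (V →ₗ[ℝ] ℝ) = Module.finrank ℝ V := Subspace.dual_finrank_eq
    omega
  rw [Fintype.not_linearIndependent_iff] at hnl
  obtain ⟨c₀, hc₀, p₀, hp₀⟩ := hnl
  obtain ⟨c, hc, p₁, hp₁⟩ : ∃ c : {p // p ∈ s} → ℝ, ∑ p, c p • f p.1 = 0 ∧ ∃ p, 0 < c p := by
    rcases lt_or_gt_of_ne hp₀ with h | h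
    · refine ⟨fun p => - c₀ p, ?_, p₀, by linarith⟩
      have e : ∑ p, (- c₀ p) • f p.1 = - ∑ p, c₀ p • f p.1 := by
        rw [← sum_neg_distrib]
        refine sum_congr rfl fun p _ => ?_
        refine LinearMap.ext fun w => ?_
        rw [LinearMap.smul_apply, LinearMap.neg_apply, LinearMap.smul_apply, smul_eq_mul, smul_eq_mul, neg_mul]
      rw [e, hc₀, neg_zero]
    · exact ⟨c₀, hc₀, p₀, h⟩
  set t : Finset I := (univ.filter fun p : {p // p ∈ s} => 0 < c p).map ⟨Subtype.val, Subtype.val_injective⟩ with ht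
  have hts : t ⊆ s := by
    intro p hp
    rw [ht, mem_map] at hp
    obtain ⟨q, -, rfl⟩ := hp
    exact q.2
  obtain ⟨u, hu, hut⟩ := hs hts
  obtain ⟨ω, hω⟩ := h𝒜 u hu
  have key : ∀ p : {p // p ∈ s}, 0 < f p.1 (v ω) ↔ 0 < c p := by
    intro p
    rw [← hL]
    constructor
    · intro h
      have h1 : p.1 ∈ s ∩ u := by
        rw [mem_inter, hω, mem_filter]
        exact ⟨p.2, mem_univ _, h⟩
      rw [hut, ht, mem_map] at h1
      obtain ⟨q, hq, hqp⟩ := h1
      have : q = p := Subtype.ext hqp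
      subst this
      exact (mem_filter.1 hq).2
    · intro h
      have h1 : p.1 ∈ s ∩ u := by
        rw [hut, ht, mem_map]
        exact ⟨p, mem_filter.2 ⟨mem_univ _, h⟩, rfl⟩
      rw [mem_inter, hω, mem_filter] at h1
      exact h1.2.2
  have h0 : ∑ p, c p * f p.1 (v ω) = 0 := by
    have := congrArg (fun g : V →ₗ[ℝ] ℝ => g (v ω)) hc
    simpa [LinearMap.sum_apply] using this
  have hnn : ∀ p ∈ (univ : Finset {p // p ∈ s}), 0 ≤ c p * f p.1 (v ω) := by
    intro p _
    by_cases h : 0 < c p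
    · exact mul_nonneg h.le ((key p).2 h).le
    · have h1 : ¬ 0 < f p.1 (v ω) := fun h2 => h ((key p).1 h2)
      exact mul_nonneg_of_nonpos_of_nonpos (not_lt.1 h) (not_lt.1 h1)
  have h1 := (sum_eq_zero_iff_of_nonneg hnn).1 h0 p₁ (mem_univ _)
  have h2 : 0 < c p₁ * f p₁.1 (v ω) := mul_pos hp₁ ((key p₁).2 hp₁)
  linarith

/-- polynomials are smaller than exponentials -/
theorem exists_large (q M : ℕ) : ∃ k : ℕ, (q + 1) * (k * M + 1) ^ q < 2 ^ k := by
  have h1 : Filter.Tendsto (fun k : ℕ => ((k : ℝ) ^ (q + 1)) / (2 : ℝ) ^ k) Filter.atTop (nhds 0) :=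
    tendsto_pow_const_div_const_pow_of_one_lt (q + 1) (by norm_num)
  have h2 := h1.eventually (gt_mem_nhds (show (0 : ℝ) < 1 / ((M + 1) ^ q : ℝ) by positivity))
  obtain ⟨k, hk1, hk2⟩ := (h2.and (Filter.eventually_ge_atTop (q + 2))).exists
  refine ⟨k, ?_⟩
  have h3 : (k : ℝ) ^ (q + 1) * (M + 1) ^ q < 2 ^ k := by
    rw [div_lt_div_iff₀ (by positivity) (by positivity)] at hk1
    linarith
  have h4 : k ^ (q + 1) * (M + 1) ^ q < 2 ^ k := by exact_mod_cast h3
  refine lt_of_le_of_lt ?_ h4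
  have h5 : k * M + 1 ≤ k * (M + 1) := by
    have : 1 ≤ k := by omega
    nlinarith
  calc (q + 1) * (k * M + 1) ^ q ≤ k * (k * (M + 1)) ^ q := Nat.mul_le_mul (by omega) (Nat.pow_le_pow_left h5 q)
    _ = k ^ (q + 1) * (M + 1) ^ q := by rw [mul_pow]; ring

/-- the count of sign patterns -/
theorem pattern_card {V I Ω : Type} [AddCommGroup V] [Module ℝ V] [Module.Finite ℝ V] [DecidableEq I] [Fintype I]
    (L : Ω → I → Prop) (f : I → (V →ₗ[ℝ] ℝ)) (v : Ω → V) (hL : ∀ ω p, L ω p ↔ 0 < f p (v ω))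
    (𝒜 : Finset (Finset I)) (h𝒜 : ∀ u ∈ 𝒜, ∃ ω, ∀ p, p ∈ u ↔ L ω p) :
    𝒜.card ≤ (Module.finrank ℝ V + 1) * (Fintype.card I + 1) ^ Module.finrank ℝ V := by
  classical
  have h𝒜' : ∀ u ∈ 𝒜, ∃ ω, u = univ.filter fun p => L ω p := by
    intro u hu
    obtain ⟨ω, hω⟩ := h𝒜 u hu
    refine ⟨ω, ?_⟩
    ext p
    rw [mem_filter, hω]
    simp
  have hvc : 𝒜.vcDim ≤ Module.finrank ℝ V := by
    refine Finset.sup_le fun s hs => ?_
    exact shatter_card L f v hL 𝒜 (fun u hu => by
      obtain ⟨ω, hω⟩ := h𝒜' u hu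
      exact ⟨ω, hω⟩) s (mem_shatterer.1 hs)
  refine (card_le_card_shatterer 𝒜).trans (card_shatterer_le_sum_vcDim.trans ?_)
  refine (sum_le_sum_of_subset (Iic_subset_Iic.2 hvc)).trans ?_
  refine (sum_le_card_nsmul _ _ ((Fintype.card I + 1) ^ Module.finrank ℝ V) fun j hj => ?_).trans ?_
  · refine (Nat.choose_le_pow _ _).trans ?_
    exact (Nat.pow_le_pow_left (Nat.le_succ _) j).trans (Nat.pow_le_pow_right (Nat.succ_pos _) (mem_Iic.1 hj))
  · rw [Nat.card_Iic, smul_eq_mul]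

end Pool.Agent.Zk39.LC
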